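import Mathlib
import Pool.Agent.H98.BT
import Pool.Agent.H98.BT2
import Pool.Agent.H98.BT3
import Pool.Agent.H98.BT4
import Pool.Agent.H98.BT5

set_option autoImplicit false

namespace Pool.Agent.Results.MP_c9ffa7_al.LocallyNormalSubgroups

universe u v

/-- Let `G` be a torsion-free barely transitive group on `Ω`, and let `T` be a subgroup which
contains a subgroup of finite index of a point stabiliser. Then `T ≠ 1`. Let `L ≠ 1` be a subgroup
of `G` normalised by `T`, and `S` a subgroup such that `S ∩ L` has finite index in `L`. Then `S` is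
not soluble, the centraliser of `S` in `G` is trivial, and more generally `S` normalises no abelian
subgroup `A ≠ 1` of `G` of finite rank (that is, such that `A` contains a finite set `F` for which
every element of `A` has a positive power in the subgroup generated by `F`). -/
theorem result (G : Type u) (Ω : Type v) [Group G] [MulAction G Ω] [FaithfulSMul G Ω]
    [MulAction.IsPretransitive G Ω] [Infinite Ω]
    (hfin : ∀ K : Subgroup G, K ≠ ⊤ → ∀ x : Ω, (MulAction.orbit K x).Finite)
    (htf : ∀ g : G, IsOfFinOrder g → g = 1) (x : Ω) (T : Subgroup G)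
    (hT : T.relIndex (MulAction.stabilizer G x) ≠ 0) :
    T ≠ ⊥ ∧ ∀ L : Subgroup G, (∀ t ∈ T, ∀ a ∈ L, t * a * t⁻¹ ∈ L) → L ≠ ⊥ →
      ∀ S : Subgroup G, S.relIndex L ≠ 0 →
        ¬ Group.IsSolvable S ∧ Subgroup.centralizer (S : Set G) = ⊥ ∧
        ∀ A : Subgroup G, (∀ s ∈ S, ∀ a ∈ A, s * a * s⁻¹ ∈ A) →
          (∀ a ∈ A, ∀ b ∈ A, a * b = b * a) →
          (∃ F : Finset G, (∀ f ∈ F, f ∈ A) ∧
            ∀ a ∈ A, ∃ k : ℕ, 0 < k ∧ a ^ k ∈ Subgroup.closure (F : Set G)) →
          A = ⊥ := by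
  have h := Pool.Agent.H98.BT.hyp_of_action hfin htf x
  have hH : MulAction.stabilizer G x ≠ ⊤ := Pool.Agent.H98.BT.stab_ne_top x
  refine ⟨Pool.Agent.H98.BT.open_ne_bot hfin htf x T hT, fun L hL hL1 S hS => ?_⟩
  exact ⟨Pool.Agent.H98.BT.not_solvable_finite_index h L S T hT hL hL1 hS,
    Pool.Agent.H98.BT.centralizer_finite_index h hH L S T hT hL hL1 hS,
    fun A hSA hab hF =>
      Pool.Agent.H98.BT.no_finrank_abelian_finite_index h hH L S T A hT hL hL1 hS hab hF hSA⟩

end Pool.Agent.Results.MP_c9ffa7_al.LocallyNormalSubgroups
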